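import Pool.Agent.R409.RG.Art
import Pool.Agent.R409.RJ.Alg
import Pool.Agent.R409.RJ.Der

/-!
# Stark's conjecture for one character as a limit of finite sums

Let `K/F` be an abelian extension with group `G`, `S` a finite set of primes of `F` and `χ` a character
of `G` such that `L_S(χ, s)` has a simple zero at `s = 0`. With the finite sums

`N(X) = ∑ χ(frob v)^j κ_γ(j log q_v / X) / j`, `κ_γ(u) = e^{iγu} / Γ(1 + u)`,

over the primes `v ∉ S` and the `j ≥ 1` with `q_v^j ≤ exp (exp (κ X))`, we prove that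
`L_S'(χ, 0) = lim e^{-Λ_γ} X exp(N(X))` with an error `O(1/X)`, that the zero is simple if and only if
`X exp(N(X))` is bounded and bounded away from `0` along one sequence `X → ∞`, and that Q1 for `χ`,
which says that `L_S'(χ, 0)` is in the `ℚ(χ)`-span of the numbers `R(u) = ∑_σ χ(σ) log |σ u|_v`,
`u ∈ U_{v,S}`, is equivalent to the statement that `e^{-Λ_γ} X exp(N(X)) / R(u₀)` tends to an element
of `ℚ(χ)` along one sequence.
-/

set_option autoImplicit false

namespace Pool.Agent.Results.MP_c49e96_nt.MixedSignatureLimit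

open NumberField IsDedekindDomain Filter Topology Asymptotics

section defs

variable {F : Type} [Field F] [NumberField F] {G : Type} [CommGroup G]

/-- `L_S(χ, s) = ∏_{v ∉ S} (1 - χ(frob v) q_v^{-s})⁻¹`. -/
noncomputable def LFun (S : Finset (HeightOneSpectrum (𝓞 F))) (frob : HeightOneSpectrum (𝓞 F) → G)
    (χ : G →* ℂˣ) (s : ℂ) : ℂ :=
  ∏' v : {v : HeightOneSpectrum (𝓞 F) // v ∉ S},
    (1 - ((χ (frob v.1) : ℂˣ) : ℂ) * (Ideal.absNorm v.1.asIdeal : ℂ) ^ (-s))⁻¹

/-- `L` is analytic at `0` and meromorphic at the points of the real segment `[0, 1]`, and it is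
`L_S(χ, s)` for `Re s > 1`. -/
def IsContinuation (S : Finset (HeightOneSpectrum (𝓞 F))) (frob : HeightOneSpectrum (𝓞 F) → G)
    (χ : G →* ℂˣ) (L : ℂ → ℂ) : Prop :=
  AnalyticAt ℂ L 0 ∧ (∀ x : ℝ, 0 ≤ x → x ≤ 1 → MeromorphicAt L (x : ℂ)) ∧
    ∀ s : ℂ, 1 < s.re → L s = LFun S frob χ s

/-- The weight `κ_γ(u) = e^{iγu} / Γ(1 + u)`. -/
noncomputable def weight (γ u : ℝ) : ℂ :=
  Complex.exp (Complex.I * (γ * u)) / Complex.Gamma (1 + u)

/-- `Λ_γ = ∫_0^∞ (e^{-t} - e^{iγt} / Γ(1 + t)) dt / t`. -/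
noncomputable def lam (γ : ℝ) : ℂ :=
  ∫ t in Set.Ioi (0 : ℝ), (Real.exp (-t) - weight γ t) / t

/-- `N(X) = ∑ χ(frob v)^j κ_γ(j log q_v / X) / j`, the sum over the `v ∉ S` and `j ≥ 1` with
`q_v^j ≤ exp (exp (κ X))`. -/
noncomputable def count (S : Finset (HeightOneSpectrum (𝓞 F)))
    (frob : HeightOneSpectrum (𝓞 F) → G) (χ : G →* ℂˣ) (γ κ X : ℝ) : ℂ :=
  ∑ᶠ x ∈ {x : {v : HeightOneSpectrum (𝓞 F) // v ∉ S} × ℕ | 1 ≤ x.2 ∧
      (Ideal.absNorm x.1.1.asIdeal : ℝ) ^ x.2 ≤ Real.exp (Real.exp (κ * X))},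
    ((χ (frob x.1.1) : ℂˣ) : ℂ) ^ x.2 *
      weight γ (x.2 * Real.log (Ideal.absNorm x.1.1.asIdeal) / X) / x.2

/-- `e^{-Λ_γ} X exp(N(X))`. -/
noncomputable def approx (S : Finset (HeightOneSpectrum (𝓞 F)))
    (frob : HeightOneSpectrum (𝓞 F) → G) (χ : G →* ℂˣ) (γ κ X : ℝ) : ℂ :=
  Complex.exp (-lam γ) * (X : ℂ) * Complex.exp (count S frob χ γ κ X)

/-- The field `ℚ(χ)`, as a set of complex numbers. -/
def field (χ : G →* ℂˣ) : Set ℂ :=
  {z | z ∈ IntermediateField.adjoin ℚ (Set.range fun σ : G => ((χ σ : ℂˣ) : ℂ))}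

variable {K : Type} [Field K] [NumberField K] [Algebra F K]

/-- The group `U_{v,S}`, for a finite set `S` of primes of `F` (the places of `S` are these primes and
the two infinite places `v₁`, `v₂`): the units `u` of `K` such that, if there are primes in `S`,
`|u|_w = 1` for the infinite places `w` not over `v₁`; and if not, `|u|_w = |u|_w'` for all `w`, `w'`
over `v₂`. -/
def uvS (S : Finset (HeightOneSpectrum (𝓞 F))) (v₁ v₂ : InfinitePlace F) (K : Type) [Field K]
    [NumberField K] [Algebra F K] : Set Kˣ :=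
  {u | (IsIntegral ℤ (u : K) ∧ IsIntegral ℤ ((u⁻¹ : Kˣ) : K)) ∧
    (S.Nonempty → ∀ w : InfinitePlace K, w.comap (algebraMap F K) ≠ v₁ → w (u : K) = 1) ∧
    (S = ∅ → ∀ w w' : InfinitePlace K, w.comap (algebraMap F K) = v₂ →
      w'.comap (algebraMap F K) = v₂ → w (u : K) = w' (u : K))}

/-- `R(u) = ∑_σ χ(σ) log |σ u|_v`. -/
noncomputable def reg (act : G →* (K ≃ₐ[F] K)) (χ : G →* ℂˣ) (v : InfinitePlace K) (u : Kˣ) : ℂ :=
  ∑ᶠ σ : G, ((χ σ : ℂˣ) : ℂ) * ((Real.log (v (act σ (u : K))) : ℝ) : ℂ)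

/-- The `ℚ(χ)`-span of the numbers `R(u)`, `u ∈ U_{v,S}`: the set of the values `log |x|_v` of the
elements `x` of `(ℚ(χ) ⊗ U_{v,S})^{χ⁻¹}`, the image of `ℚ(χ) ⊗ U_{v,S}` under `∑_σ χ(σ) σ`. -/
def values (act : G →* (K ≃ₐ[F] K)) (χ : G →* ℂˣ) (S : Finset (HeightOneSpectrum (𝓞 F)))
    (v₁ v₂ : InfinitePlace F) (v : InfinitePlace K) : Set ℂ :=
  {z | ∃ (n : ℕ) (a : Fin n → ℂ) (u : Fin n → Kˣ),
    (∀ i, a i ∈ field χ ∧ u i ∈ uvS S v₁ v₂ K) ∧ z = ∑ i, a i * reg act χ v (u i)}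

/-- `|X exp(N(X))|` is between two positive constants along one sequence `X → ∞`, for one choice of
`γ > π/2` and `κ > 1`. -/
def Sandwiched (S : Finset (HeightOneSpectrum (𝓞 F))) (frob : HeightOneSpectrum (𝓞 F) → G)
    (χ : G →* ℂˣ) : Prop :=
  ∃ (γ κ b B : ℝ) (X : ℕ → ℝ), Real.pi / 2 < γ ∧ 1 < κ ∧ 0 < b ∧ Tendsto X atTop atTop ∧
    ∀ n, b ≤ ‖(X n : ℂ) * Complex.exp (count S frob χ γ κ (X n))‖ ∧
      ‖(X n : ℂ) * Complex.exp (count S frob χ γ κ (X n))‖ ≤ B

/-- `e^{-Λ_γ} X exp(N(X)) / R` tends to an element of `Y` along one sequence `X → ∞`, for one choice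
of `γ > π/2` and `κ > 1`. -/
def TendsInto (S : Finset (HeightOneSpectrum (𝓞 F))) (frob : HeightOneSpectrum (𝓞 F) → G)
    (χ : G →* ℂˣ) (R : ℂ) (Y : Set ℂ) : Prop :=
  ∃ (γ κ : ℝ) (X : ℕ → ℝ), Real.pi / 2 < γ ∧ 1 < κ ∧ Tendsto X atTop atTop ∧
    ∃ y ∈ Y, Tendsto (fun n => approx S frob χ γ κ (X n) / R) atTop (𝓝 y)

/-- `e^{-Λ_γ} X exp(N(X)) = z + O(1/X)` for all `γ > π/2` and `κ > 1`. -/
def HasRate (S : Finset (HeightOneSpectrum (𝓞 F))) (frob : HeightOneSpectrum (𝓞 F) → G)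
    (χ : G →* ℂˣ) (z : ℂ) : Prop :=
  ∀ γ κ : ℝ, Real.pi / 2 < γ → 1 < κ →
    (fun X : ℝ => approx S frob χ γ κ X - z) =O[atTop] fun X : ℝ => X⁻¹

end defs

section bridge

open Pool.Agent.R409.RC Pool.Agent.R409.RF Pool.Agent.R409.RG

variable {F : Type} [Field F] [NumberField F] {G : Type} [CommGroup G]
  {S : Finset (HeightOneSpectrum (𝓞 F))} {frob : HeightOneSpectrum (𝓞 F) → G}

theorem weight_eq {γ u : ℝ} : weight γ u = Pool.Agent.W187.S2.kk γ u := by
  unfold weight Pool.Agent.W187.S2.kk Pool.Agent.W189.ML.om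
  have h1 : Complex.Gamma (1 + u) = ((Real.Gamma (1 + u) : ℝ) : ℂ) := by
    rw [← Complex.Gamma_ofReal]
    push_cast
    rfl
  rw [h1, div_eq_mul_inv]
  push_cast
  congr 2
  ring

theorem lam_eq (γ : ℝ) : lam γ = Pool.Agent.W187.UR.Lam γ := by
  unfold lam Pool.Agent.W187.UR.Lam
  refine MeasureTheory.integral_congr_ae (Filter.Eventually.of_forall fun t => ?_)
  simp only
  rw [weight_eq]
  unfold Pool.Agent.W187.S2.kk Pool.Agent.W189.ML.om
  push_cast
  rfl

/-- the norms -/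
noncomputable def qS (S : Finset (HeightOneSpectrum (𝓞 F)))
    (v : {v : HeightOneSpectrum (𝓞 F) // v ∉ S}) : ℝ := qv v.1

theorem qS_sum {σ : ℝ} (hσ : 1 < σ) : Summable fun v => qS S v ^ (-σ) :=
  (Pool.Agent.H921R2.TatePole.nm_summable (K := F) hσ).subtype _

/-- the `1 × 1` matrices -/
noncomputable def mt (frob : HeightOneSpectrum (𝓞 F) → G) (χ : G →* ℂˣ)
    (v : {v : HeightOneSpectrum (𝓞 F) // v ∉ S}) : Matrix (Fin 1) (Fin 1) ℂ :=
  ((χ (frob v.1) : ℂˣ) : ℂ) • (1 : Matrix (Fin 1) (Fin 1) ℂ)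

theorem mt_pow (χ : G →* ℂˣ) (v : {v : HeightOneSpectrum (𝓞 F) // v ∉ S}) (k : ℕ) :
    mt frob χ v ^ k = ((χ (frob v.1 ^ k) : ℂˣ) : ℂ) • (1 : Matrix (Fin 1) (Fin 1) ℂ) := by
  unfold mt
  rw [smul_pow, one_pow, map_pow, Units.val_pow_eq_pow_val]

variable [Finite G]

/-- the law for a character -/
theorem law_char {χ : G →* ℂˣ} {L : ℂ → ℂ} (hL : IsContinuation S frob χ L) :
    ∃ (m : ℤ) (r₀ : ℂ), meromorphicOrderAt L 0 = m ∧
      Complex.exp r₀ = meromorphicTrailingCoeffAt L 0 ∧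
      ∀ γ θ : ℝ, Real.pi / 2 < γ → 1 < θ →
        Law (fun T => count S frob χ γ θ T) m r₀ (lam γ) := by
  have hcard : Nat.card G ≠ 0 := Nat.card_pos.ne'
  obtain ⟨m, r₀, hm, hr, hlaw⟩ := law_mat (P := {v : HeightOneSpectrum (𝓞 F) // v ∉ S})
    (q := qS S) (A := mt frob χ) (F := L) (fun v => two_le_qv v.1)
    (fun σ hσ => qS_sum hσ) (fun v => ⟨Nat.card G, hcard, by
      rw [mt_pow, pow_card_eq_one', map_one, Units.val_one, one_smul]⟩) hL.2.1 (fun s hs => by
      rw [hL.2.2 s hs]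
      unfold LFun qS qv mt
      refine tprod_congr fun v => ?_
      congr 1
      rw [Matrix.det_fin_one]
      simp
      ring)
  refine ⟨m, r₀, hm, hr, fun γ θ hγ hθ => ?_⟩
  have h1 := hlaw γ θ hγ hθ
  have h2 : (fun T : ℝ => count S frob χ γ θ T) =
      fun T => ∑ᶠ x ∈ {x : {v : HeightOneSpectrum (𝓞 F) // v ∉ S} × ℕ | 1 ≤ x.2 ∧
        qS S x.1 ^ x.2 ≤ Real.exp (Real.exp (θ * T))},
        tterm (qS S) (mt frob χ) γ T x.1 x.2 := by
    funext T
    unfold count
    refine finsum_mem_congr rfl fun x _ => ?_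
    unfold tterm
    rw [mt_pow, weight_eq]
    unfold Pool.Agent.W187.S2.kk qS qv
    simp only [Matrix.trace_smul, Matrix.trace_one, Fintype.card_fin, Nat.cast_one, smul_eq_mul,
      mul_one, map_pow, Units.val_pow_eq_pow_val]
    push_cast
    ring
  rw [h2, lam_eq]
  exact h1

end bridge

open Pool.Agent.R409.RC in
/-- **Stark's conjecture for one character as a limit of finite sums.** Let `K/F` be number fields, `G`
a finite abelian group acting on `K` over `F`, `χ` a character of `G`, `S` a finite set of primes of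
`F`, `frob` a function from the primes of `F` to `G` (for an abelian extension with group `G`: the
Frobenius elements), and `L` a continuation of `L_S(χ, s)`.

* `L` has a simple zero at `0` if and only if `X exp(N(X))` is bounded and bounded away from `0` along
  one sequence `X → ∞`, for one choice of `γ > π/2`, `κ > 1`;
* if so, `L'(0) ≠ 0`, and `L'(0) = e^{-Λ_γ} X exp(N(X)) + O(1/X)` for all `γ > π/2`, `κ > 1`;
* `L'(0)` is in the `ℚ(χ)`-span of the numbers `R(u)`, `u ∈ U_{v,S}` (Q1 for `χ`) if and only if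
  `e^{-Λ_γ} X exp(N(X))` tends to an element of this span along one sequence, for one choice of `γ`, `κ`;
* if `u₀ ∈ U_{v,S}`, `R(u₀) ≠ 0` and all `R(u)`, `u ∈ U_{v,S}`, are in `ℚ(χ) R(u₀)`, this is the case if
  and only if `e^{-Λ_γ} X exp(N(X)) / R(u₀)` tends to an element of `ℚ(χ)` along one sequence, for one
  choice of `γ`, `κ`. -/
theorem result (F K : Type) [Field F] [NumberField F] [Field K] [NumberField K] [Algebra F K]
    (G : Type) [CommGroup G] [Finite G] (act : G →* (K ≃ₐ[F] K)) (χ : G →* ℂˣ)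
    (S : Finset (HeightOneSpectrum (𝓞 F))) (frob : HeightOneSpectrum (𝓞 F) → G)
    (L : ℂ → ℂ) (_ : IsContinuation S frob χ L) :
    (analyticOrderAt L 0 = 1 ↔ Sandwiched S frob χ) ∧
    (analyticOrderAt L 0 = 1 → deriv L 0 ≠ 0 ∧ HasRate S frob χ (deriv L 0) ∧
      ∀ (v₁ v₂ : InfinitePlace F) (v : InfinitePlace K),
        (deriv L 0 ∈ values act χ S v₁ v₂ v ↔
          TendsInto S frob χ 1 (values act χ S v₁ v₂ v)) ∧
        ∀ u₀ ∈ uvS S v₁ v₂ K, reg act χ v u₀ ≠ 0 →
          (∀ u ∈ uvS S v₁ v₂ K, ∃ a ∈ field χ, reg act χ v u = a * reg act χ v u₀) →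
          (deriv L 0 ∈ values act χ S v₁ v₂ v ↔
            TendsInto S frob χ (reg act χ v u₀) (field χ))) := by
  classical
  rename_i hL
  obtain ⟨m, r₀, hm, hr₀, hlaw⟩ := law_char hL
  have hpi : Real.pi / 2 < Real.pi := by linarith [Real.pi_pos]
  -- the order
  have hord : analyticOrderAt L 0 = 1 ↔ m = 1 := by
    have h1 := hm
    rw [hL.1.meromorphicOrderAt_eq] at h1
    cases h2 : analyticOrderAt L 0 with
    | top =>
      rw [h2] at h1
      exact absurd h1 (by simp)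
    | coe n =>
      rw [h2, ENat.map_natCast] at h1
      have h3 : ((n : ℤ) : WithTop ℤ) = m := h1
      have h4 : (n : ℤ) = m := by exact_mod_cast h3
      constructor
      · intro h5
        have h6 : n = 1 := by exact_mod_cast h5
        omega
      · intro h5
        have h6 : n = 1 := by omega
        rw [h6]
        rfl
  have hrate : ∀ γ κ : ℝ, Real.pi / 2 < γ → 1 < κ → 1 ≤ m →
      (fun X : ℝ => approx S frob χ γ κ X - (if m = 1 then Complex.exp r₀ else 0)) =O[atTop]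
        fun X : ℝ => X⁻¹ := by
    intro γ κ hγ hκ h1
    have h2 := Pool.Agent.R409.RJ.law_rate (hlaw γ κ hγ hκ) (r := 1) (by exact_mod_cast h1)
    refine h2.congr_left fun X => ?_
    unfold approx
    simp
  have htend : ∀ γ κ : ℝ, Real.pi / 2 < γ → 1 < κ → 1 ≤ m →
      Tendsto (fun X : ℝ => approx S frob χ γ κ X) atTop
        (𝓝 (if m = 1 then Complex.exp r₀ else 0)) := by
    intro γ κ hγ hκ h1
    have h2 := (hrate γ κ hγ hκ h1).trans_tendsto tendsto_inv_atTop_zero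
    have h3 := h2.add_const (if m = 1 then Complex.exp r₀ else 0)
    simpa using h3
  have hnorm : ∀ γ κ X : ℝ, ‖(X : ℂ) * Complex.exp (count S frob χ γ κ X)‖ =
      ‖Complex.exp (lam γ)‖ * ‖approx S frob χ γ κ X‖ := by
    intro γ κ X
    rw [← norm_mul]
    congr 1
    unfold approx
    have h6 : Complex.exp (lam γ) * Complex.exp (-lam γ) = 1 := by
      rw [← Complex.exp_add, add_neg_cancel, Complex.exp_zero]
    linear_combination (-((X : ℂ) * Complex.exp (count S frob χ γ κ X))) * h6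
  refine ⟨?_, fun hone => ?_⟩
  · rw [hord]
    constructor
    · intro h1
      have h2 := htend Real.pi 2 hpi (by norm_num) h1.ge
      rw [if_pos h1] at h2
      have h3 : Tendsto (fun X : ℝ => ‖(X : ℂ) * Complex.exp (count S frob χ Real.pi 2 X)‖) atTop
          (𝓝 (‖Complex.exp (lam Real.pi)‖ * ‖Complex.exp r₀‖)) := by
        simp only [hnorm]
        exact h2.norm.const_mul _
      have hc : 0 < ‖Complex.exp (lam Real.pi)‖ * ‖Complex.exp r₀‖ :=
        mul_pos (norm_pos_iff.2 (Complex.exp_ne_zero _)) (norm_pos_iff.2 (Complex.exp_ne_zero _))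
      set c := ‖Complex.exp (lam Real.pi)‖ * ‖Complex.exp r₀‖ with hcdef
      have h4 : ∀ᶠ X : ℝ in atTop,
          c / 2 < ‖(X : ℂ) * Complex.exp (count S frob χ Real.pi 2 X)‖ ∧
            ‖(X : ℂ) * Complex.exp (count S frob χ Real.pi 2 X)‖ < 2 * c :=
        (h3.eventually (lt_mem_nhds (by linarith))).and (h3.eventually (gt_mem_nhds (by linarith)))
      obtain ⟨X₀, hX₀⟩ := eventually_atTop.1 h4
      refine ⟨Real.pi, 2, c / 2, 2 * c, fun n => X₀ + n, hpi, by norm_num, by linarith,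
        tendsto_atTop_add_const_left _ _ tendsto_natCast_atTop_atTop, fun n => ?_⟩
      have h5 := hX₀ (X₀ + n) (by linarith [(Nat.cast_nonneg n : (0 : ℝ) ≤ n)])
      exact ⟨h5.1.le, h5.2.le⟩
    · rintro ⟨γ, κ, b, B, X, hγ, hκ, hb, hX, hB⟩
      have h1 : (1 : ℤ) ≤ m := by
        have := Pool.Agent.R409.RJ.law_bdd (hlaw γ κ hγ hκ) (r := 1) hX (B := B)
          (Eventually.of_forall fun n => by
            rw [pow_one]
            exact (hB n).2)
        exact_mod_cast this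
      by_contra hne
      have h2 := htend γ κ hγ hκ h1
      rw [if_neg hne] at h2
      have h3 : Tendsto (fun n : ℕ => ‖(X n : ℂ) * Complex.exp (count S frob χ γ κ (X n))‖) atTop
          (𝓝 (‖Complex.exp (lam γ)‖ * ‖(0 : ℂ)‖)) := by
        simp only [hnorm]
        exact (h2.comp hX).norm.const_mul _
      rw [norm_zero, mul_zero] at h3
      have h4 := ge_of_tendsto h3 (Eventually.of_forall fun n => (hB n).1)
      linarith
  · have h1 : m = 1 := hord.1 hone
    have hval := (Pool.Agent.R409.RJ.lim_val hL.1 (analyticAt_const (v := (1 : ℂ))) hm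
      (r := 1) (by rw [hone]; rfl)).2
    have hd : deriv L 0 = Complex.exp r₀ := by
      rw [hr₀]
      have h2 : (fun s : ℂ => L s * 1) = L := by
        funext s
        rw [mul_one]
      rw [h2, iteratedDeriv_one] at hval
      rw [hval, if_pos (by exact_mod_cast h1)]
      simp
    have hrate' : ∀ γ κ : ℝ, Real.pi / 2 < γ → 1 < κ →
        (fun X : ℝ => approx S frob χ γ κ X - deriv L 0) =O[atTop] fun X : ℝ => X⁻¹ := by
      intro γ κ hγ hκ
      have h2 := hrate γ κ hγ hκ h1.ge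
      rw [if_pos h1, ← hd] at h2
      exact h2
    have htend' : ∀ γ κ : ℝ, Real.pi / 2 < γ → 1 < κ →
        Tendsto (fun X : ℝ => approx S frob χ γ κ X) atTop (𝓝 (deriv L 0)) := by
      intro γ κ hγ hκ
      have h2 := htend γ κ hγ hκ h1.ge
      rw [if_pos h1, ← hd] at h2
      exact h2
    refine ⟨by rw [hd]; exact Complex.exp_ne_zero _, hrate', fun v₁ v₂ v => ⟨⟨fun hw =>
      ⟨Real.pi, 2, fun n => n, hpi, by norm_num, tendsto_natCast_atTop_atTop, deriv L 0, hw, by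
        simp only [div_one]
        exact (htend' Real.pi 2 hpi (by norm_num)).comp tendsto_natCast_atTop_atTop⟩, ?_⟩, ?_⟩⟩
    · rintro ⟨γ, κ, X, hγ, hκ, hX, y, hy, hlim⟩
      simp only [div_one] at hlim
      have h2 : deriv L 0 = y := tendsto_nhds_unique ((htend' γ κ hγ hκ).comp hX) hlim
      rw [h2]
      exact hy
    · intro u₀ hu₀ hR hfin
      constructor
      · rintro ⟨n, a, u, hau, hz⟩
        choose b hb using fun i => hfin (u i) (hau i).2
        have ha' : (∑ i, a i * b i) * reg act χ v u₀ = deriv L 0 := by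
          rw [hz, Finset.sum_mul]
          refine Finset.sum_congr rfl fun i _ => ?_
          rw [(hb i).2]
          ring
        refine ⟨Real.pi, 2, fun n => n, hpi, by norm_num, tendsto_natCast_atTop_atTop,
          ∑ i, a i * b i, ?_, ?_⟩
        · show _ ∈ IntermediateField.adjoin ℚ _
          exact sum_mem fun i _ => mul_mem (hau i).1 (hb i).1
        · have h2 := ((htend' Real.pi 2 hpi (by norm_num)).comp
            tendsto_natCast_atTop_atTop).div_const (reg act χ v u₀)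
          rw [← ha', mul_div_cancel_right₀ _ hR] at h2
          exact h2
      · rintro ⟨γ, κ, X, hγ, hκ, hX, a, ha, hlim⟩
        have h2 := ((htend' γ κ hγ hκ).comp hX).div_const (reg act χ v u₀)
        have h3 : deriv L 0 / reg act χ v u₀ = a := tendsto_nhds_unique h2 hlim
        refine ⟨1, fun _ => a, fun _ => u₀, fun _ => ⟨ha, hu₀⟩, ?_⟩
        rw [Fin.sum_univ_one, ← h3, div_mul_cancel₀ _ hR]

end Pool.Agent.Results.MP_c49e96_nt.MixedSignatureLimit
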